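import Pool.Agent.Y611.DG.Def

/-!
# Machines with stacks are simulated by multi-tape Turing machines

The Turing machine simulates one step of the machine with stacks by `2 L + 2` of its steps, where `L`
is a bound for the lengths of the words which are pushed and written: the state `(q, v, i, φ)` with
`φ = 0` is a main state, with `φ = 1` a state before the `i`-th round and with `φ = 2` a state in the
`i`-th round of the transition of the machine from the control state `q` with the tops `v` of the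
stacks. (Author: helper297.)
-/

set_option autoImplicit false

namespace Pool.Agent.Y611.DG

namespace Cp

variable {d : ℕ} {Q Γ : Type} {k : ℕ}

/-- the states of the Turing machine -/
abbrev TS (Q Γ : Type) (k L : ℕ) : Type := Q × (Fin k → Option Γ) × Fin (L + 1) × Fin 3

/-- the configurations of the Turing machine -/
abbrev TC (d : ℕ) (Q Γ : Type) (k L : ℕ) : Type :=
  TS Q Γ k L × (Fin k → ℕ → Option Γ) × (Fin k → ℕ) × List (Fin d)

/-- the transition function -/
def del (M : SM d Q Γ k) (L : ℕ) (s : TS Q Γ k L) (u : Fin k → Option Γ) :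
    TS Q Γ k L × (Fin k → Option Γ) × (Fin k → Fin 3) × Option (Fin d) :=
  if s.2.2.2 = 0 then
    ((s.1, u, 0, 1), u, fun j => if M.pop s.1 u j = true ∧ (u j).isSome = true then 0 else 1, none)
  else if s.2.2.2 = 1 then
    if (s.2.2.1 : ℕ) = L then
      ((M.next s.1 s.2.1, fun _ => none, 0, 0), u, fun _ => 1, none)
    else ((s.1, s.2.1, s.2.2.1, 2), u,
      fun j => if ((M.push s.1 s.2.1 j).reverse[(s.2.2.1 : ℕ)]?).isSome = true then 2 else 1, none)
  else ((s.1, s.2.1, ⟨min ((s.2.2.1 : ℕ) + 1) L, by omega⟩, 1),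
    fun j => ((M.push s.1 s.2.1 j).reverse[(s.2.2.1 : ℕ)]?).or (u j), fun _ => 1,
    (M.out s.1 s.2.1)[(s.2.2.1 : ℕ)]?)

/-- one step of the Turing machine -/
def astep (M : SM d Q Γ k) (L : ℕ) (c : TC d Q Γ k L) : TC d Q Γ k L :=
  ((del M L c.1 (fun j => c.2.1 j (c.2.2.1 j))).1,
   fun j i => if i = c.2.2.1 j then (del M L c.1 (fun j' => c.2.1 j' (c.2.2.1 j'))).2.1 j
     else c.2.1 j i,
   fun j => c.2.2.1 j + ((del M L c.1 (fun j' => c.2.1 j' (c.2.2.1 j'))).2.2.1 j : ℕ) - 1,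
   c.2.2.2 ++ ((del M L c.1 (fun j' => c.2.1 j' (c.2.2.1 j'))).2.2.2).toList)

/-- the configuration after `t` steps -/
def ac (M : SM d Q Γ k) (L : ℕ) (t : ℕ) : TC d Q Γ k L :=
  (astep M L)^[t] ((M.q0, fun _ => none, 0, 0), fun _ _ => none, fun _ => 0, [])

lemma ac_succ (M : SM d Q Γ k) (L t : ℕ) : ac M L (t + 1) = astep M L (ac M L t) :=
  Function.iterate_succ_apply' _ _ _

/-- the stack is written on the tape -/
def Rep : List Γ → (ℕ → Option Γ) → Prop
  | [], tp => tp 0 = none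
  | x :: S, tp => tp (S.length + 1) = some x ∧ Rep S tp

lemma Rep.top {S : List Γ} {tp : ℕ → Option Γ} (h : Rep S tp) : tp S.length = S.head? := by
  cases S with
  | nil => exact h
  | cons x S => exact h.1

lemma Rep.tl {S : List Γ} {tp : ℕ → Option Γ} (h : Rep S tp) : Rep S.tail tp := by
  cases S with
  | nil => exact h
  | cons x S => exact h.2

lemma Rep.cong {S : List Γ} {tp tp' : ℕ → Option Γ} (h : Rep S tp)
    (h' : ∀ i ≤ S.length, tp' i = tp i) : Rep S tp' := by
  induction S with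
  | nil => exact (h' 0 le_rfl).trans h
  | cons x S ih =>
    exact ⟨(h' _ le_rfl).trans h.1, ih h.2 fun i hi => h' i (hi.trans (Nat.le_succ _))⟩

/-- the stack after `i` letters have been written -/
def stk (P R : List Γ) (i : ℕ) : List Γ := (P.reverse.take i).reverse ++ R

lemma stk_zero (P R : List Γ) : stk P R 0 = R := by
  simp [stk]

lemma stk_succ (P R : List Γ) (i : ℕ) : stk P R (i + 1) = (P.reverse[i]?).toList ++ stk P R i := by
  unfold stk
  rw [List.take_add_one, List.reverse_append, List.append_assoc]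
  congr 1
  cases P.reverse[i]? <;> simp

lemma stk_full (P R : List Γ) {i : ℕ} (h : P.length ≤ i) : stk P R i = P ++ R := by
  unfold stk
  rw [List.take_of_length_le (by simpa using h), List.reverse_reverse]

lemma stk_len (P R : List Γ) (i : ℕ) : (stk P R i).length ≤ i + R.length := by
  unfold stk
  rw [List.length_append, List.length_reverse, List.length_take]
  omega

/-- the tops of the stacks -/
def hv (c : Q × (Fin k → List Γ) × List (Fin d)) : Fin k → Option Γ := fun j => (c.2.1 j).head?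

/-- the stacks after the removal of tops -/
def rs (M : SM d Q Γ k) (c : Q × (Fin k → List Γ) × List (Fin d)) (j : Fin k) : List Γ :=
  if M.pop c.1 (hv c) j = true then (c.2.1 j).tail else c.2.1 j

/-- the stacks in the `i`-th round -/
def sk (M : SM d Q Γ k) (c : Q × (Fin k → List Γ) × List (Fin d)) (i : ℕ) (j : Fin k) : List Γ :=
  stk (M.push c.1 (hv c) j) (rs M c j) i

/-- the letter which is written in the `i`-th round -/
def lt (M : SM d Q Γ k) (c : Q × (Fin k → List Γ) × List (Fin d)) (i : ℕ) (j : Fin k) : Option Γ :=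
  (M.push c.1 (hv c) j).reverse[i]?

lemma sk_succ (M : SM d Q Γ k) (c : Q × (Fin k → List Γ) × List (Fin d)) (i : ℕ) (j : Fin k) :
    sk M c (i + 1) j = (lt M c i j).toList ++ sk M c i j := stk_succ _ _ _

def IsMain (L : ℕ) (c : Q × (Fin k → List Γ) × List (Fin d)) (a : TC d Q Γ k L) : Prop :=
  a.1 = (c.1, fun _ => none, 0, 0) ∧ (∀ j, a.2.2.1 j = (c.2.1 j).length) ∧
    (∀ j, Rep (c.2.1 j) (a.2.1 j)) ∧ a.2.2.2 = c.2.2

def IsRight (M : SM d Q Γ k) (L : ℕ) (c : Q × (Fin k → List Γ) × List (Fin d)) (i : ℕ)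
    (a : TC d Q Γ k L) : Prop :=
  (∃ hi : i < L + 1, a.1 = (c.1, hv c, ⟨i, hi⟩, 1)) ∧
    (∀ j, a.2.2.1 j = (sk M c i j).length) ∧
    (∀ j, Rep (sk M c i j) (a.2.1 j)) ∧ a.2.2.2 = c.2.2 ++ (M.out c.1 (hv c)).take i

def IsWrite (M : SM d Q Γ k) (L : ℕ) (c : Q × (Fin k → List Γ) × List (Fin d)) (i : ℕ)
    (a : TC d Q Γ k L) : Prop :=
  i < L ∧ (∃ hi : i < L + 1, a.1 = (c.1, hv c, ⟨i, hi⟩, 2)) ∧
    (∀ j, a.2.2.1 j = (sk M c i j).length + if (lt M c i j).isSome = true then 1 else 0) ∧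
    (∀ j, Rep (sk M c i j) (a.2.1 j)) ∧ a.2.2.2 = c.2.2 ++ (M.out c.1 (hv c)).take i

lemma del_main (M : SM d Q Γ k) (L : ℕ) (q : Q) (v u : Fin k → Option Γ) (i : Fin (L + 1)) :
    del M L (q, v, i, 0) u = ((q, u, 0, 1), u,
      fun j => if M.pop q u j = true ∧ (u j).isSome = true then 0 else 1, none) := by
  unfold del
  rw [if_pos rfl]

lemma del_right (M : SM d Q Γ k) (L : ℕ) (q : Q) (v u : Fin k → Option Γ) (i : Fin (L + 1))
    (hi : (i : ℕ) ≠ L) : del M L (q, v, i, 1) u = ((q, v, i, 2), u,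
      fun j => if ((M.push q v j).reverse[(i : ℕ)]?).isSome = true then 2 else 1, none) := by
  unfold del
  rw [if_neg (by simp), if_pos rfl, if_neg hi]

lemma del_last (M : SM d Q Γ k) (L : ℕ) (q : Q) (v u : Fin k → Option Γ) (i : Fin (L + 1))
    (hi : (i : ℕ) = L) : del M L (q, v, i, 1) u =
      ((M.next q v, fun _ => none, 0, 0), u, fun _ => 1, none) := by
  unfold del
  rw [if_neg (by simp), if_pos rfl, if_pos hi]

lemma del_write (M : SM d Q Γ k) (L : ℕ) (q : Q) (v u : Fin k → Option Γ) (i : Fin (L + 1)) :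
    del M L (q, v, i, 2) u = ((q, v, ⟨min ((i : ℕ) + 1) L, by omega⟩, 1),
      fun j => ((M.push q v j).reverse[(i : ℕ)]?).or (u j), fun _ => 1, (M.out q v)[(i : ℕ)]?) := by
  unfold del
  rw [if_neg (by simp), if_neg (by simp)]

lemma main_right {M : SM d Q Γ k} {L : ℕ} {c : Q × (Fin k → List Γ) × List (Fin d)}
    {a : TC d Q Γ k L} (h : IsMain L c a) : IsRight M L c 0 (astep M L a) := by
  obtain ⟨h1, h2, h3, h4⟩ := h
  have hu : (fun j => a.2.1 j (a.2.2.1 j)) = hv c := by
    funext j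
    rw [h2]
    exact (h3 j).top
  have hu' : ∀ j, a.2.1 j (a.2.2.1 j) = (c.2.1 j).head? := fun j => congrFun hu j
  unfold astep
  rw [hu, h1, del_main]
  refine ⟨⟨by omega, rfl⟩, fun j => ?_, fun j => ?_, ?_⟩
  · show a.2.2.1 j + ((if M.pop c.1 (hv c) j = true ∧ (hv c j).isSome = true then 0 else 1 : Fin 3)
      : ℕ) - 1 = (sk M c 0 j).length
    unfold sk
    rw [stk_zero, h2]
    unfold rs hv
    cases hS : c.2.1 j with
    | nil => simp
    | cons x S =>
      by_cases hp : M.pop c.1 (fun j => (c.2.1 j).head?) j = true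
      · rw [if_pos ⟨hp, by simp⟩, if_pos hp]
        simp
      · rw [if_neg (fun h => hp h.1), if_neg hp]
        simp
  · have h5 : Rep (sk M c 0 j) (a.2.1 j) := by
      unfold sk
      rw [stk_zero]
      unfold rs
      split_ifs
      · exact (h3 j).tl
      · exact h3 j
    refine h5.cong fun i _ => ?_
    show (if i = a.2.2.1 j then hv c j else a.2.1 j i) = a.2.1 j i
    split_ifs with hi
    · rw [hi]
      exact (hu' j).symm
    · rfl
  · show a.2.2.2 ++ [] = _
    rw [h4]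
    simp

lemma right_write {M : SM d Q Γ k} {L i : ℕ} {c : Q × (Fin k → List Γ) × List (Fin d)}
    {a : TC d Q Γ k L} (hi : i < L) (h : IsRight M L c i a) : IsWrite M L c i (astep M L a) := by
  obtain ⟨⟨hi', h1⟩, h2, h3, h4⟩ := h
  unfold astep
  rw [h1, del_right M L _ _ _ _ (by exact hi.ne)]
  refine ⟨hi, ⟨hi', rfl⟩, fun j => ?_, fun j => ?_, ?_⟩
  · show a.2.2.1 j + ((if (lt M c i j).isSome = true then 2 else 1 : Fin 3) : ℕ) - 1 = _
    rw [h2]
    split_ifs
    · simp
    · simp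
  · refine (h3 j).cong fun i _ => ?_
    show (if i = a.2.2.1 j then a.2.1 j (a.2.2.1 j) else a.2.1 j i) = a.2.1 j i
    split_ifs with hi
    · rw [hi]
    · rfl
  · show a.2.2.2 ++ [] = _
    rw [h4, List.append_nil]

lemma write_right {M : SM d Q Γ k} {L i : ℕ} {c : Q × (Fin k → List Γ) × List (Fin d)}
    {a : TC d Q Γ k L} (h : IsWrite M L c i a) : IsRight M L c (i + 1) (astep M L a) := by
  obtain ⟨hi, ⟨hi', h1⟩, h2, h3, h4⟩ := h
  unfold astep
  rw [h1, del_write]
  refine ⟨⟨by omega, ?_⟩, fun j => ?_, fun j => ?_, ?_⟩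
  · show ((c.1, hv c, ⟨min (i + 1) L, _⟩, 1) : TS Q Γ k L) = (c.1, hv c, ⟨i + 1, _⟩, 1)
    have : (⟨min (i + 1) L, by omega⟩ : Fin (L + 1)) = ⟨i + 1, by omega⟩ := Fin.ext (by
      show min (i + 1) L = i + 1
      omega)
    rw [this]
  · show a.2.2.1 j + ((1 : Fin 3) : ℕ) - 1 = _
    rw [h2, sk_succ]
    cases lt M c i j <;> simp [add_comm]
  · rw [sk_succ]
    show Rep _ (fun i' => if i' = a.2.2.1 j then (lt M c i j).or (a.2.1 j (a.2.2.1 j))
      else a.2.1 j i')
    have h5 := h2 j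
    cases hl : lt M c i j with
    | none =>
      refine (h3 j).cong fun i' _ => ?_
      show (if i' = a.2.2.1 j then (a.2.1 j (a.2.2.1 j)) else a.2.1 j i') = a.2.1 j i'
      split_ifs with hi
      · rw [hi]
      · rfl
    | some x =>
      rw [hl] at h5
      simp only [Option.isSome_some, if_true] at h5
      refine ⟨?_, (h3 j).cong fun i' hi'' => ?_⟩
      · show (if (sk M c i j).length + 1 = a.2.2.1 j then some x else _) = some x
        rw [if_pos h5.symm]
      · show (if i' = a.2.2.1 j then some x else a.2.1 j i') = a.2.1 j i'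
        rw [if_neg (by omega)]
  · show a.2.2.2 ++ ((M.out c.1 (hv c))[i]?).toList = _
    rw [h4, List.append_assoc, List.take_add_one]

lemma right_main {M : SM d Q Γ k} {L i : ℕ} {c : Q × (Fin k → List Γ) × List (Fin d)}
    {a : TC d Q Γ k L} (hP : ∀ q v j, (M.push q v j).length ≤ L)
    (hO : ∀ q v, (M.out q v).length ≤ L) (hi : i = L) (h : IsRight M L c i a) :
    IsMain L (M.step c) (astep M L a) := by
  subst hi
  obtain ⟨⟨hi', h1⟩, h2, h3, h4⟩ := h
  have h5 : ∀ j, sk M c i j = (M.step c).2.1 j := by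
    intro j
    unfold sk
    rw [stk_full _ _ (hP _ _ _)]
    rfl
  unfold astep
  rw [h1, del_last M i _ _ _ _ rfl]
  refine ⟨rfl, fun j => ?_, fun j => ?_, ?_⟩
  · show a.2.2.1 j + ((1 : Fin 3) : ℕ) - 1 = _
    rw [h2, h5]
    simp
  · rw [← h5]
    refine (h3 j).cong fun i _ => ?_
    show (if i = a.2.2.1 j then a.2.1 j (a.2.2.1 j) else a.2.1 j i) = a.2.1 j i
    split_ifs with hi
    · rw [hi]
    · rfl
  · show a.2.2.2 ++ [] = c.2.2 ++ M.out c.1 (hv c)
    rw [h4, List.append_nil, List.take_of_length_le (hO _ _)]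

lemma run_succ (M : SM d Q Γ k) (T : ℕ) : M.run (T + 1) = M.step (M.run T) :=
  Function.iterate_succ_apply' _ _ _

/-- the invariant -/
def Inv (M : SM d Q Γ k) (L T : ℕ) (a : TC d Q Γ k L) : Prop :=
  IsMain L (M.run T) a ∨ (∃ i ≤ L, IsRight M L (M.run T) i a) ∨ ∃ i, IsWrite M L (M.run T) i a

lemma init_main (M : SM d Q Γ k) (L : ℕ) : IsMain L (M.run 0) (ac M L 0) :=
  ⟨rfl, fun _ => rfl, fun _ => rfl, rfl⟩

lemma inv_all {M : SM d Q Γ k} {L : ℕ} (hP : ∀ q v j, (M.push q v j).length ≤ L)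
    (hO : ∀ q v, (M.out q v).length ≤ L) (t : ℕ) : ∃ T, Inv M L T (ac M L t) := by
  induction t with
  | zero => exact ⟨0, Or.inl (init_main M L)⟩
  | succ t ih =>
    obtain ⟨T, h⟩ := ih
    rw [ac_succ]
    rcases h with h | ⟨i, hi, h⟩ | ⟨i, h⟩
    · exact ⟨T, Or.inr (Or.inl ⟨0, Nat.zero_le _, main_right h⟩)⟩
    · by_cases hiL : i = L
      · refine ⟨T + 1, Or.inl ?_⟩
        rw [run_succ]
        exact right_main hP hO hiL h
      · exact ⟨T, Or.inr (Or.inr ⟨i, right_write (by omega) h⟩)⟩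
    · exact ⟨T, Or.inr (Or.inl ⟨i + 1, h.1, write_right h⟩)⟩

lemma main_all {M : SM d Q Γ k} {L : ℕ} (hP : ∀ q v j, (M.push q v j).length ≤ L)
    (hO : ∀ q v, (M.out q v).length ≤ L) (T : ℕ) : ∃ t, IsMain L (M.run T) (ac M L t) := by
  induction T with
  | zero => exact ⟨0, init_main M L⟩
  | succ T ih =>
    obtain ⟨t, ht⟩ := ih
    have h1 : ∀ i ≤ L, IsRight M L (M.run T) i (ac M L (t + 1 + 2 * i)) := by
      intro i
      induction i with
      | zero =>
        intro _
        rw [mul_zero, add_zero, ac_succ]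
        exact main_right ht
      | succ i ih =>
        intro hi
        rw [show t + 1 + 2 * (i + 1) = t + 1 + 2 * i + 1 + 1 by ring, ac_succ, ac_succ]
        exact write_right (right_write hi (ih (by omega)))
    refine ⟨t + 1 + 2 * L + 1, ?_⟩
    rw [run_succ, ac_succ]
    exact right_main hP hO rfl (h1 L le_rfl)

lemma inv_out {M : SM d Q Γ k} {L T : ℕ} {a : TC d Q Γ k L} (h : Inv M L T a) :
    (M.run T).2.2 <+: a.2.2.2 ∧ a.2.2.2 <+: (M.run (T + 1)).2.2 := by
  have h0 : (M.run (T + 1)).2.2 = (M.run T).2.2 ++ M.out (M.run T).1 (hv (M.run T)) := by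
    rw [run_succ]
    rfl
  rcases h with ⟨-, -, -, h⟩ | ⟨i, -, -, -, -, h⟩ | ⟨i, -, -, -, -, h⟩
  · rw [h, h0]
    exact ⟨List.prefix_rfl, List.prefix_append _ _⟩
  · rw [h, h0]
    exact ⟨List.prefix_append _ _, (List.prefix_append_right_inj _).2 (List.take_prefix _ _)⟩
  · rw [h, h0]
    exact ⟨List.prefix_append _ _, (List.prefix_append_right_inj _).2 (List.take_prefix _ _)⟩

lemma rs_len (M : SM d Q Γ k) (c : Q × (Fin k → List Γ) × List (Fin d)) (j : Fin k) :
    (rs M c j).length ≤ (c.2.1 j).length := by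
  unfold rs
  split_ifs
  · rw [List.length_tail]
    omega
  · exact le_rfl

lemma inv_pos {M : SM d Q Γ k} {L T : ℕ} {a : TC d Q Γ k L} (h : Inv M L T a) (j : Fin k) :
    a.2.2.1 j ≤ ((M.run T).2.1 j).length + L + 1 := by
  have h1 := rs_len M (M.run T) j
  rcases h with ⟨-, h, -, -⟩ | ⟨i, hi, -, h, -, -⟩ | ⟨i, hi, -, h, -, -⟩
  · rw [h]
    omega
  · have h2 := stk_len (M.push (M.run T).1 (hv (M.run T)) j) (rs M (M.run T) j) i
    have h3 := h j
    unfold sk at h3
    omega
  · have h2 := stk_len (M.push (M.run T).1 (hv (M.run T)) j) (rs M (M.run T) j) i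
    have h3 := h j
    unfold sk at h3
    split_ifs at h3 <;> omega

lemma pos_step (M : SM d Q Γ k) (L : ℕ) (a : TC d Q Γ k L) (j : Fin k) :
    (astep M L a).2.2.1 j ≤ a.2.2.1 j + 1 := by
  show a.2.2.1 j + ((del M L a.1 (fun j' => a.2.1 j' (a.2.2.1 j'))).2.2.1 j : ℕ) - 1 ≤ _
  have := ((del M L a.1 (fun j' => a.2.1 j' (a.2.2.1 j'))).2.2.1 j).2
  omega

lemma exists_code (α : Type) [Finite α] (a : α) : ∃ (m : ℕ) (e : α ≃ Fin (m + 1)), e a = 0 := by
  obtain ⟨n, ⟨e⟩⟩ := Finite.exists_equiv_fin α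
  obtain ⟨m, rfl⟩ : ∃ m, n = m + 1 := ⟨n - 1, by have := (e a).2; omega⟩
  exact ⟨m, e.trans (Equiv.swap (e a) 0), by simp⟩

end Cp

open Cp in
theorem compile : CompileStm := by
  intro d k Q Γ _ _ M
  obtain ⟨L, hL⟩ : ∃ L : ℕ, ∀ q v, (M.out q v).length + ∑ j, (M.push q v j).length ≤ L := by
    obtain ⟨L, hL⟩ := (Set.finite_range (fun p : Q × (Fin k → Option Γ) =>
      (M.out p.1 p.2).length + ∑ j, (M.push p.1 p.2 j).length)).bddAbove
    exact ⟨L, fun q v => hL ⟨(q, v), rfl⟩⟩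
  have hO : ∀ q v, (M.out q v).length ≤ L := fun q v => (Nat.le_add_right _ _).trans (hL q v)
  have hP : ∀ q v j, (M.push q v j).length ≤ L := by
    intro q v j
    refine le_trans ?_ ((Nat.le_add_left _ _).trans (hL q v))
    exact Finset.single_le_sum (f := fun j => (M.push q v j).length) (fun _ _ => Nat.zero_le _)
      (Finset.mem_univ j)
  obtain ⟨m, e, he⟩ := exists_code (TS Q Γ k L) (M.q0, fun _ => none, 0, 0)
  obtain ⟨g, f, hf⟩ := exists_code (Option Γ) none
  refine ⟨m, g, L + 2, fun s v => (e (del M L (e.symm s) (fun j => f.symm (v j))).1,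
    fun j => f ((del M L (e.symm s) (fun j => f.symm (v j))).2.1 j),
    (del M L (e.symm s) (fun j => f.symm (v j))).2.2.1,
    (del M L (e.symm s) (fun j => f.symm (v j))).2.2.2),
    fun t => (e (ac M L t).1, fun j i => f ((ac M L t).2.1 j i), (ac M L t).2.2.1,
      (ac M L t).2.2.2), ?_, ?_, ?_, ?_, ?_⟩
  · show (e (M.q0, fun _ => none, 0, 0), fun _ _ => f none, fun _ => 0, []) = _
    rw [he, hf]
  · intro t
    simp only [Equiv.symm_apply_apply, ac_succ]
    refine Prod.ext rfl (Prod.ext ?_ rfl)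
    funext j i
    show f (if i = (ac M L t).2.2.1 j then _ else _) = _
    exact apply_ite f _ _ _
  · intro t
    obtain ⟨T, hT⟩ := inv_all hP hO t
    exact ⟨T + 1, (inv_out hT).2⟩
  · intro T
    obtain ⟨t, ht⟩ := main_all hP hO T
    exact ⟨t, ht.2.2.2⟩
  · intro n t hn ht
    rcases t with _ | t
    · exact Or.inl fun j => Nat.zero_le _
    · right
      obtain ⟨T, hT⟩ := inv_all hP hO t
      refine ⟨T, lt_of_le_of_lt (inv_out hT).1.length_le (ht t (Nat.lt_succ_self t)), fun j => ?_⟩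
      show (ac M L (t + 1)).2.2.1 j ≤ _
      rw [ac_succ]
      have h1 := pos_step M L (ac M L t) j
      have h2 := inv_pos hT j
      omega

end Pool.Agent.Y611.DG
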