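import Mathlib

/-!
# Machines with stacks
-/

set_option autoImplicit false

namespace Pool.Agent.Y611.DG

/-- A machine with `k` stacks over the alphabet `Γ` and the control states `Q`, which writes a word
over `Fin d` on its output tape. A step depends on the control state and the tops of the stacks; it
may remove the top of a stack, push a word (the first letter becomes the top) and write a word. -/
structure SM (d : ℕ) (Q Γ : Type) (k : ℕ) where
  q0 : Q
  next : Q → (Fin k → Option Γ) → Q
  pop : Q → (Fin k → Option Γ) → Fin k → Bool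
  push : Q → (Fin k → Option Γ) → Fin k → List Γ
  out : Q → (Fin k → Option Γ) → List (Fin d)

namespace SM

variable {d : ℕ} {Q Γ : Type} {k : ℕ}

/-- one step: control state, stacks (the head of the list is the top), output -/
def step (M : SM d Q Γ k) (c : Q × (Fin k → List Γ) × List (Fin d)) :
    Q × (Fin k → List Γ) × List (Fin d) :=
  (M.next c.1 fun j => (c.2.1 j).head?,
    fun j => M.push c.1 (fun j => (c.2.1 j).head?) j ++
      if M.pop c.1 (fun j => (c.2.1 j).head?) j = true then (c.2.1 j).tail else c.2.1 j,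
    c.2.2 ++ M.out c.1 fun j => (c.2.1 j).head?)

/-- the configuration after `T` steps -/
def run (M : SM d Q Γ k) (T : ℕ) : Q × (Fin k → List Γ) × List (Fin d) :=
  M.step^[T] (M.q0, fun _ => [], [])

end SM

/-- Machines with stacks are simulated by multi-tape Turing machines in the format of the frozen
statement `S14753`, the positions of the heads are bounded by the heights of the stacks. -/
def CompileStm : Prop :=
  ∀ (d k : ℕ) (Q Γ : Type) [Finite Q] [Finite Γ] (M : SM d Q Γ k),
    ∃ (m g B : ℕ)
      (δM : Fin (m+1) → (Fin k → Fin (g+1)) →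
        Fin (m+1) × (Fin k → Fin (g+1)) × (Fin k → Fin 3) × Option (Fin d))
      (conf : ℕ → Fin (m+1) × (Fin k → ℕ → Fin (g+1)) × (Fin k → ℕ) × List (Fin d)),
      conf 0 = (0, fun _ _ => 0, fun _ => 0, []) ∧
      (∀ t : ℕ, conf (t+1) =
        ((δM (conf t).1 (fun j => (conf t).2.1 j ((conf t).2.2.1 j))).1,
         fun j i => if i = (conf t).2.2.1 j
           then (δM (conf t).1 (fun j' => (conf t).2.1 j' ((conf t).2.2.1 j'))).2.1 j
           else (conf t).2.1 j i,
         fun j => (conf t).2.2.1 j
           + ((δM (conf t).1 (fun j' => (conf t).2.1 j' ((conf t).2.2.1 j'))).2.2.1 j : ℕ) - 1,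
         (conf t).2.2.2
           ++ ((δM (conf t).1 (fun j' => (conf t).2.1 j' ((conf t).2.2.1 j'))).2.2.2).toList)) ∧
      (∀ t : ℕ, ∃ T : ℕ, (conf t).2.2.2 <+: (M.run T).2.2) ∧
      (∀ T : ℕ, ∃ t : ℕ, (conf t).2.2.2 = (M.run T).2.2) ∧
      (∀ n t : ℕ, 1 ≤ n → (∀ t' < t, (conf t').2.2.2.length < n) →
        (∀ j : Fin k, (conf t).2.2.1 j ≤ B) ∨
        ∃ T : ℕ, (M.run T).2.2.length < n ∧
          ∀ j : Fin k, (conf t).2.2.1 j ≤ ((M.run T).2.1 j).length + B)

end Pool.Agent.Y611.DG
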